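import Pool.Agent.H51.ERA.Stmts

set_option autoImplicit false

namespace Pool.Agent.H4.ERA

open Pool.Agent.H51.ERA

theorem ty_eq (s t : ℕ) (b b' : ℕ → Bool) (e x : ℕ) (he : 1 ≤ e) (hx : x < t)
    (h : ty s t b (e * gg s t + lam s + x) = ty s t b' (e * gg s t + lam s + x)) : b x = b' x := by
  have hg : gg s t = lam s + t + ll s t := rfl
  have hmod : (e * gg s t + lam s + x) % gg s t = lam s + x := by
    rw [show e * gg s t + lam s + x = (lam s + x) + e * gg s t by ring, Nat.add_mul_mod_self_right]
    exact Nat.mod_eq_of_lt (by omega)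
  have hge : ¬ (e * gg s t + lam s + x < gg s t) := by
    have : 1 * gg s t ≤ e * gg s t := Nat.mul_le_mul_right _ he
    omega
  unfold ty at h
  have hw : lam s ≤ lam s + x ∧ lam s + x < lam s + t := by constructor <;> omega
  rw [hmod, if_pos hw, if_neg hge, if_pos hw, if_neg hge,
    show lam s + x - lam s = x by omega] at h
  cases h1 : b x <;> cases h2 : b' x <;> rw [h1, h2] at h <;> simp at h ⊢

theorem HFB_thm (hARR : ARRStmt) (hHC1 : HC1Stmt) (hHC2 : HC2Stmt) : HFBStmt := by
  intro N Q L rho sys hL s t b b' q K K' e off m1 m2 m3 mC hK hK' hy hy' hlen he hM hM' hC hp x hx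
  have hpall : (K.map (kd s)).Perm (K'.map (kd s)) := by
    have h1 := hp K.length (by simp)
    rw [List.take_length, hlen, List.take_length] at h1
    exact h1
  obtain ⟨B, hB1, hB2, hB3⟩ := hARR (Sg N) _ (kd s) [m1, m2, m3, m3 + 1, mC, mC + 1, K.length] K K'
    hlen hp hpall
  have hfst : B.map Prod.fst = K.map Prod.fst := by
    have h1 := congrArg (List.map Prod.fst) hB2
    rw [List.map_map, List.map_map] at h1
    exact h1
  have hgood : Good (yl B) := hL _ (sys.hyb q K K' B hK hK' hB1 hfst)
  have h1 := hHC1 s t b b' N K K' B e off m1 m2 m3 hy hy' hM hM' hB1 hB2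
    (fun m hm => hB3 m (by
      simp only [List.mem_cons, List.not_mem_nil, or_false] at hm ⊢
      tauto)) hgood x hx
  have hg : gg s t = lam s + t + ll s t := rfl
  have hge : gg s t ≤ e * gg s t + lam s + x := by
    have : 1 * gg s t ≤ e * gg s t := Nat.mul_le_mul_right _ he
    omega
  have hlt : e * gg s t + lam s + x < nn s t := by
    have h2 : e * gg s t ≤ DD t * gg s t := Nat.mul_le_mul_right _ hM.he
    have h3 : nn s t = DD t * gg s t + gg s t := by unfold nn; ring
    omega
  have h2 := hHC2 s t b' N K' B mC hy' hC hB1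
    (fun m hm => hB3 m (by
      simp only [List.mem_cons, List.not_mem_nil, or_false] at hm ⊢
      tauto)) hgood _ hge hlt
  rw [h1] at h2
  exact ty_eq s t b b' e x he hx (Option.some.inj h2)

end Pool.Agent.H4.ERA
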