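import Pool.Agent.H51.ERA.Stmts

set_option autoImplicit false

namespace Pool.Agent.H4.ERA

open Pool.Agent.H51.ERA

/-- The covering statement below a node. -/
theorem cov_node (s t i : ℕ) (x : ℕ) (h : ℕ) : ∀ p : List Bool, IsNode s t i p →
    DD t = p.length + h → lo s t i p ≤ x → x ≤ hi s t i p →
    (∃ q ≤ gg s t, x = lo s t i p + q ∨ x + q = hi s t i p) ∨
    ∃ (i : ℕ) (p : List Bool) (c : Bool), IsNode s t i p ∧ p.length < DD t ∧
      lo s t i p + gg s t < x ∧ x + gg s t < hi s t i p ∧
      ∃ q ≤ gg s t, x = lo s t i (c :: p) + q ∨ x + q = hi s t i (c :: p) := by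
  induction h with
  | zero =>
    intro p hp hd h1 h2
    left
    have e : hi s t i p = lo s t i p + (2 * gg s t + 1) := by
      unfold hi
      have : DD t - p.length = 0 := by omega
      rw [this, tl]
    by_cases hx : x ≤ lo s t i p + gg s t
    · exact ⟨x - lo s t i p, by omega, Or.inl (by omega)⟩
    · exact ⟨hi s t i p - x, by omega, Or.inr (by omega)⟩
  | succ h ih =>
    intro p hp hd h1 h2
    have e : hi s t i p = lo s t i p + (2 * gg s t + 2 * tl s t h) := by
      unfold hi
      have : DD t - p.length = h + 1 := by omega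
      rw [this, tl]
    by_cases hx : x ≤ lo s t i p + gg s t
    · exact Or.inl ⟨x - lo s t i p, by omega, Or.inl (by omega)⟩
    by_cases hx' : hi s t i p ≤ x + gg s t
    · exact Or.inl ⟨hi s t i p - x, by omega, Or.inr (by omega)⟩
    right
    have hh : DD t - (p.length + 1) = h := by omega
    have key : ∀ c : Bool, lo s t i (c :: p) ≤ x → x ≤ hi s t i (c :: p) →
        ∃ (i : ℕ) (p : List Bool) (c : Bool), IsNode s t i p ∧ p.length < DD t ∧
          lo s t i p + gg s t < x ∧ x + gg s t < hi s t i p ∧
          ∃ q ≤ gg s t, x = lo s t i (c :: p) + q ∨ x + q = hi s t i (c :: p) := by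
      intro c hc1 hc2
      have hn : IsNode s t i (c :: p) := ⟨hp.1, by simp only [List.length_cons]; omega⟩
      rcases ih (c :: p) hn (by simp only [List.length_cons]; omega) hc1 hc2 with h3 | h3
      · exact ⟨i, p, c, hp, by omega, by omega, by omega, h3⟩
      · exact h3
    by_cases hc : x ≤ lo s t i p + gg s t + tl s t h
    · apply key false
      · simp only [lo]; simp; omega
      · unfold hi
        simp only [lo, List.length_cons, hh]
        simp; omega
    · apply key true
      · simp only [lo, hh]; simp; omega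
      · unfold hi
        simp only [lo, List.length_cons, hh]
        simp; omega

theorem COV_thm (hWLEN : WLENStmt) : COVStmt := by
  intro s t b x hx
  obtain ⟨hlen, -⟩ := hWLEN s t b
  rw [hlen] at hx
  by_cases h1 : x ≤ nn s t
  · exact Or.inl h1
  right
  have hT : 0 < tl s t (DD t) := by
    cases hD : DD t with
    | zero => unfold tl; omega
    | succ n =>
      unfold tl
      have : 0 < gg s t := by unfold gg ll; omega
      omega
  obtain ⟨i, hi1, hi2, hi3⟩ : ∃ i < kk s, nn s t + i * tl s t (DD t) ≤ x ∧
      x ≤ nn s t + i * tl s t (DD t) + tl s t (DD t) := by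
    have h2 : 0 < x - nn s t := by omega
    refine ⟨(x - nn s t - 1) / tl s t (DD t), ?_, ?_, ?_⟩
    · rw [Nat.div_lt_iff_lt_mul hT]
      omega
    · have := Nat.div_mul_le_self (x - nn s t - 1) (tl s t (DD t))
      omega
    · have := Nat.lt_div_mul_add (a := x - nn s t - 1) hT
      omega
  have hnode : IsNode s t i [] := ⟨hi1, by simp⟩
  have e1 : lo s t i [] = nn s t + i * tl s t (DD t) := by simp only [lo]
  have e2 : hi s t i [] = nn s t + i * tl s t (DD t) + tl s t (DD t) := by
    unfold hi
    rw [e1]
    simp
  rcases cov_node s t i x (DD t) [] hnode (by simp) (by omega) (by omega) with h3 | h3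
  · exact Or.inl ⟨i, hi1, h3⟩
  · exact Or.inr h3

end Pool.Agent.H4.ERA
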